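import Pool.Agent.H85.AAE2.Defs
import Pool.Agent.H71.AAE.M4

/-!
# Project AAE2, module MC: the last step of the main argument

`main5`: from generators `e` of the conormal module which are, modulo high powers of the conductor,
of degree two (monic) and of degree at most one, and whose derivatives generate the conductor, to
generators of the kernel.
-/

set_option autoImplicit false

open Polynomial

namespace Pool.Agent.H85.AAE2

open Pool.Agent.H71.AAE

universe u

section mc

variable {k : Type u} [Field k] {N m r : ℕ}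
  (φ : (MvPolynomial (Fin N) k)[X] →ₐ[k] MvPolynomial (Fin m) k)
  {s p : MvPolynomial (Fin N) k}

/-- The derivative is linear on the kernel. -/
theorem mc_mul {x h : (MvPolynomial (Fin N) k)[X]} (hh : φ h = 0) :
    φ (derivative (x * h)) = φ x * φ (derivative h) := by
  rw [derivative_mul, map_add, map_mul, map_mul, hh, mul_zero, zero_add]

/-- The derivative vanishes on the square of the kernel. -/
theorem mc_sq {h : (MvPolynomial (Fin N) k)[X]} (hh : h ∈ (RingHom.ker φ) ^ 2) :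
    φ (derivative h) = 0 := by
  rw [pow_two] at hh
  refine Submodule.mul_induction_on hh ?_ ?_
  · intro x hx y hy
    rw [mc_mul φ (RingHom.mem_ker.1 hy), RingHom.mem_ker.1 hx, zero_mul]
  · intro x y hx hy
    rw [derivative_add, map_add, hx, hy, add_zero]

theorem mc_mem {l : ℕ} {h : (MvPolynomial (Fin N) k)[X]}
    (hh : h ∈ (cond φ ^ l).comap φ * RingHom.ker φ ⊔ (RingHom.ker φ) ^ 2) :
    φ (derivative h) ∈ cond φ ^ l := by
  obtain ⟨x, hx, y, hy, rfl⟩ := Submodule.mem_sup.1 hh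
  rw [derivative_add, map_add, mc_sq φ hy, add_zero]
  refine Submodule.mul_induction_on hx ?_ ?_
  · intro a ha b hb
    rw [mc_mul φ (RingHom.mem_ker.1 hb)]
    exact Ideal.mul_mem_right _ _ ha
  · intro a b ha hb
    rw [derivative_add, map_add]
    exact add_mem ha hb

theorem mc_mono {l l' : ℕ} (h : l ≤ l') : (cond φ ^ l').comap φ * RingHom.ker φ ⊔
    (RingHom.ker φ) ^ 2 ≤ (cond φ ^ l).comap φ * RingHom.ker φ ⊔ (RingHom.ker φ) ^ 2 :=
  sup_le_sup_right (Ideal.mul_mono_left (Ideal.comap_mono (Ideal.pow_le_pow_right h))) _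

/-- An element of the `l`-th power of the conductor is the derivative of an element of degree at most
one of the `(l - 1)`-th power times the kernel. -/
theorem mc_lift {l : ℕ} (hl : 2 ≤ l) {x : MvPolynomial (Fin m) k} (hx : x ∈ cond φ ^ l) :
    ∃ β γ : MvPolynomial (Fin N) k, φ (C β * X + C γ) = 0 ∧ φ (C β) = x ∧
      C β * X + C γ ∈ (cond φ ^ (l - 1)).comap φ * RingHom.ker φ := by
  obtain ⟨l, rfl⟩ : ∃ l', l = l' + 1 := ⟨l - 1, by omega⟩
  rw [Nat.add_sub_cancel]
  rw [pow_succ] at hx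
  refine Submodule.mul_induction_on hx ?_ ?_
  · intro a ha b hb
    have ha' : a ∈ cond φ := Ideal.pow_le_self (by omega) ha
    obtain ⟨ρ, hρ⟩ := ha' 1
    obtain ⟨β, hβ⟩ := hb 1
    obtain ⟨γ, hγ⟩ := hb (φ X)
    rw [mul_one] at hρ hβ
    have h0 : φ (C β * X + C (-γ)) = 0 := by
      rw [map_add, map_mul, C_neg, map_neg, hβ, hγ]
      ring
    have h1 : C (ρ * β) * X + C (-(ρ * γ)) = C ρ * (C β * X + C (-γ)) := by
      simp only [C_mul, C_neg]
      ring
    refine ⟨ρ * β, -(ρ * γ), ?_, ?_, ?_⟩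
    · rw [h1, map_mul, h0, mul_zero]
    · rw [C_mul, map_mul, hρ, hβ]
    · rw [h1]
      refine Ideal.mul_mem_mul ?_ (RingHom.mem_ker.2 h0)
      rw [Ideal.mem_comap]
      show φ (C ρ) ∈ _
      rw [hρ]
      exact ha
  · rintro a b ⟨β, γ, h1, h2, h3⟩ ⟨β', γ', h1', h2', h3'⟩
    have e1 : C (β + β') * X + C (γ + γ') = (C β * X + C γ) + (C β' * X + C γ') := by
      simp only [C_add]
      ring
    refine ⟨β + β', γ + γ', ?_, ?_, ?_⟩
    · rw [e1, map_add, h1, h1', add_zero]
    · rw [C_add, map_add, h2, h2']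
    · rw [e1]
      exact add_mem h3 h3'

theorem mc_der (β γ : MvPolynomial (Fin N) k) : derivative (C β * X + C γ) = C β := by
  simp

/-- Correction of one element of degree at most one. -/
theorem mc_corr {t l : ℕ}
    (hC : ∀ h : (MvPolynomial (Fin N) k)[X],
      h ∈ (cond φ ^ t).comap φ * RingHom.ker φ ⊔ (RingHom.ker φ) ^ 2 →
      φ (derivative h) = 0 →
      ∃ ν ν' : MvPolynomial (Fin N) k, φ (C ν) = 0 ∧ φ (C ν') = 0 ∧
        h - (C ν * X + C ν') ∈ (RingHom.ker φ) ^ 2) (hl : t + 1 ≤ l) (hl2 : 2 ≤ l)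
    {b e : (MvPolynomial (Fin N) k)[X]}
    (h : b - e ∈ (cond φ ^ l).comap φ * RingHom.ker φ ⊔ (RingHom.ker φ) ^ 2) :
    ∃ β γ : MvPolynomial (Fin N) k, φ (C β * X + C γ) = 0 ∧
      b + (C β * X + C γ) - e ∈ (RingHom.ker φ) ^ 2 := by
  have h1 := mc_mem φ h
  obtain ⟨β, γ, h2, h3, h4⟩ := mc_lift φ hl2 (neg_mem h1)
  obtain ⟨ν, ν', h5, h6, h7⟩ := hC (b - e + (C β * X + C γ)) (by
    refine mc_mono φ (show t ≤ l - 1 by omega) (add_mem (mc_mono φ (Nat.sub_le l 1) h) ?_)
    exact Submodule.mem_sup_left h4) (by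
    rw [derivative_add, map_add, mc_der, h3, add_neg_cancel])
  refine ⟨β - ν, γ - ν', ?_, ?_⟩
  · have e1 : C (β - ν) * X + C (γ - ν') = (C β * X + C γ) - (C ν * X + C ν') := by
      simp only [C_sub]
      ring
    rw [e1, map_sub, h2, map_add, map_mul, h5, h6]
    ring
  · have e1 : b + (C (β - ν) * X + C (γ - ν')) - e =
        b - e + (C β * X + C γ) - (C ν * X + C ν') := by
      simp only [C_sub]
      ring
    rw [e1]
    exact h7

/-- (MC) Step 5. -/
theorem main5 (hφ : Function.Surjective φ) (hg : φ X ^ 2 = φ (C s) * φ X - φ (C p))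
    (hS : ∀ b, ∃ α β : MvPolynomial (Fin N) k, b = φ (C α) + φ (C β) * φ X) (t l : ℕ)
    (hC : ∀ h : (MvPolynomial (Fin N) k)[X],
      h ∈ (cond φ ^ t).comap φ * RingHom.ker φ ⊔ (RingHom.ker φ) ^ 2 →
      φ (derivative h) = 0 →
      ∃ ν ν' : MvPolynomial (Fin N) k, φ (C ν) = 0 ∧ φ (C ν') = 0 ∧
        h - (C ν * X + C ν') ∈ (RingHom.ker φ) ^ 2) (hl : t + 1 ≤ l) (hl2 : 2 ≤ l)
    (e : Fin (r + 3) → (MvPolynomial (Fin N) k)[X]) (he : ∀ i, φ (e i) = 0)
    (hgen : RingHom.ker φ ≤ Ideal.span (Set.range e) ⊔ (RingHom.ker φ) ^ 2)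
    (h0 : aa s p - e 0 ∈ (cond φ ^ l).comap φ * RingHom.ker φ ⊔ (RingHom.ker φ) ^ 2)
    (hj : ∀ j : Fin (r + 2), ∃ β γ : MvPolynomial (Fin N) k, φ (C β * X + C γ) = 0 ∧
        C β * X + C γ - e j.succ ∈
          (cond φ ^ l).comap φ * RingHom.ker φ ⊔ (RingHom.ker φ) ^ 2)
    (hc : tl (fun i => φ (derivative (e i))) = cond φ) :
    ∃ w : Fin (r + 3) → (MvPolynomial (Fin N) k)[X],
      Ideal.span (Set.range w) = RingHom.ker φ := by
  classical
  -- the element of degree two
  obtain ⟨β₀, γ₀, a1, a2⟩ := mc_corr φ hC hl hl2 h0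
  have a3 : aa s p + (C β₀ * X + C γ₀) = aa (s - β₀) (p + γ₀) := by
    unfold aa
    simp only [C_sub, C_add]
    ring
  rw [a3] at a2
  obtain ⟨s', hs'⟩ : ∃ s', s' = s - β₀ := ⟨_, rfl⟩
  obtain ⟨p', hp'⟩ : ∃ p', p' = p + γ₀ := ⟨_, rfl⟩
  rw [← hs', ← hp'] at a2 a3
  have a4 : φ (aa s' p') = 0 := by
    rw [← a3, map_add, a1, add_zero, phi_aa hg]
  -- the elements of degree one
  have hj' : ∀ j : Fin (r + 2), ∃ β γ : MvPolynomial (Fin N) k, φ (C β * X + C γ) = 0 ∧
      C β * X + C γ - e j.succ ∈ (RingHom.ker φ) ^ 2 := by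
    intro j
    obtain ⟨β, γ, b1, b2⟩ := hj j
    obtain ⟨β', γ', b3, b4⟩ := mc_corr φ hC hl hl2 b2
    have e1 : C (β + β') * X + C (γ + γ') = C β * X + C γ + (C β' * X + C γ') := by
      simp only [C_add]
      ring
    refine ⟨β + β', γ + γ', ?_, ?_⟩
    · rw [e1, map_add, b1, b3, add_zero]
    · rw [e1]
      exact b4
  choose B G b1 b2 using hj'
  obtain ⟨v, hv⟩ : ∃ v : Fin (r + 3) → (MvPolynomial (Fin N) k)[X],
    v = Fin.cons (aa s' p') (fun j => C (B j) * X + C (G j)) := ⟨_, rfl⟩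
  have hv0 : v 0 = aa s' p' := by rw [hv, Fin.cons_zero]
  have hvj : ∀ j : Fin (r + 2), v j.succ = C (B j) * X + C (G j) := fun j => by
    rw [hv, Fin.cons_succ]
  have hvk : ∀ i, v i ∈ RingHom.ker φ := by
    intro i
    refine Fin.cases ?_ (fun j => ?_) i
    · rw [hv0]
      exact RingHom.mem_ker.2 a4
    · rw [hvj]
      exact RingHom.mem_ker.2 (b1 j)
  have hve : ∀ i, v i - e i ∈ (RingHom.ker φ) ^ 2 := by
    intro i
    refine Fin.cases ?_ (fun j => ?_) i
    · rw [hv0]
      exact a2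
    · rw [hvj]
      exact b2 j
  have hvm : ∀ i, v i ∈ Ideal.span (Set.range v) := fun i => Ideal.subset_span ⟨i, rfl⟩
  refine nakayama_patch (RingHom.ker φ) v hvk (by rw [hv0]; exact aa_monic s' p') ?_ ?_
  · -- modulo `N A`
    intro h hh
    obtain ⟨q, h₁, h₀, rfl⟩ := decomp s' p' h
    rw [RingHom.mem_ker] at hh
    have c1 : φ (C h₁) * φ X + φ (C h₀) = 0 := by
      rw [map_add, map_mul, a4, mul_zero, zero_add, map_add, map_mul] at hh
      exact hh
    have c2 : φ (C h₁) ∈ cond φ := mem_cond_of hS (r := h₁) (r' := -h₀) rfl (by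
      rw [C_neg, map_neg]
      linear_combination -c1)
    have hBD : ∀ j : Fin (r + 2), φ (derivative (e j.succ)) = φ (C (B j)) := by
      intro j
      have h1 := mc_sq φ (b2 j)
      rw [derivative_sub, map_sub, mc_der] at h1
      exact (sub_eq_zero.1 h1).symm
    rw [← hc] at c2
    unfold tl at c2
    simp only [hBD] at c2
    obtain ⟨x, hx⟩ := (Ideal.mem_span_range_iff_exists_fun).1 c2
    choose α α' hα using fun j => hS (x j)
    -- the combination of the elements of degree one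
    obtain ⟨y, hy⟩ : ∃ y : Fin (r + 2) → (MvPolynomial (Fin N) k)[X],
      y = fun j => C (α j + s' * α' j) - C (α' j) * X := ⟨_, rfl⟩
    have key : ∀ j, y j * v j.succ = -C (α' j * B j) * v 0 +
        (C (α j * B j - α' j * G j) * X + C ((α j + s' * α' j) * G j + α' j * B j * p')) := by
      intro j
      rw [hy, hvj, hv0]
      unfold aa
      simp only [C_add, C_mul, C_sub]
      ring
    obtain ⟨ν, hν⟩ : ∃ ν, ν = h₁ - ∑ j, (α j * B j - α' j * G j) := ⟨_, rfl⟩
    obtain ⟨ν', hν'⟩ : ∃ ν', ν' = h₀ - ∑ j, ((α j + s' * α' j) * G j + α' j * B j * p') := ⟨_, rfl⟩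
    have d1 : q * aa s' p' + (C h₁ * X + C h₀) =
        (q * v 0 + ∑ j, (y j * v j.succ + C (α' j * B j) * v 0)) + (C ν * X + C ν') := by
      have d2 : ∀ j, y j * v j.succ + C (α' j * B j) * v 0 =
          C (α j * B j - α' j * G j) * X + C ((α j + s' * α' j) * G j + α' j * B j * p') := by
        intro j
        rw [key j]
        ring
      simp only [d2]
      rw [Finset.sum_add_distrib, ← Finset.sum_mul, ← map_sum, ← map_sum, hν, hν', hv0]
      simp only [C_sub]
      ring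
    have d3 : φ (C ν) = 0 := by
      have d4 : ∀ j, φ (C (α j * B j - α' j * G j)) = x j * φ (C (B j)) := by
        intro j
        have d5 : φ (C (G j)) = -(φ (C (B j)) * φ X) := by
          have d6 := b1 j
          rw [map_add, map_mul] at d6
          linear_combination d6
        rw [C_sub, C_mul, C_mul, map_sub, map_mul, map_mul, d5, hα j]
        ring
      rw [hν, C_sub, map_sub, map_sum, map_sum, Finset.sum_congr rfl fun j _ => d4 j, hx, sub_self]
    have d7 : φ (C ν') = 0 := by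
      have d8 : φ (q * aa s' p' + (C h₁ * X + C h₀)) = 0 := hh
      rw [d1, map_add, map_add, map_mul, map_sum] at d8
      have d9 : ∀ i, φ (v i) = 0 := fun i => RingHom.mem_ker.1 (hvk i)
      simp only [map_add, map_mul, d9, mul_zero, add_zero, Finset.sum_const_zero, d3, zero_mul,
        zero_add] at d8
      exact d8
    rw [d1]
    refine add_mem (Submodule.mem_sup_left ?_) (Submodule.mem_sup_right ?_)
    · exact add_mem (Ideal.mul_mem_left _ _ (hvm 0)) (sum_mem fun j _ =>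
        add_mem (Ideal.mul_mem_left _ _ (hvm _)) (Ideal.mul_mem_left _ _ (hvm 0)))
    · refine add_mem (Ideal.mul_mem_right _ _ ?_) ?_
      · exact Ideal.mem_map_of_mem _ (Ideal.mem_comap.2 (RingHom.mem_ker.2 d3))
      · exact Ideal.mem_map_of_mem _ (Ideal.mem_comap.2 (RingHom.mem_ker.2 d7))
  · -- modulo the square
    refine hgen.trans (sup_le (Ideal.span_le.2 ?_) le_sup_right)
    rintro _ ⟨i, rfl⟩
    have h1 : e i = v i - (v i - e i) := by ring
    rw [SetLike.mem_coe, h1]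
    exact sub_mem (Submodule.mem_sup_left (hvm i)) (Submodule.mem_sup_right (hve i))

end mc

end Pool.Agent.H85.AAE2
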